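import Pool.Agent.helper14.NS.Cert

/-!
Generated: table Q20c.
-/

namespace Pool.Agent.helper14.NS.Q20c

open Pool.Agent.helper63.NF Pool.Agent.helper4.NS

def tab : TD where
  strip := false
  bm := none
  ec := 45902462976
  bc := 824633720832
  H := [[[-2884377664, 44756282816, -7039666496, 16843186112], [-420952899776, -55061788160], [1985374544000]], [[7247842432, -4101970624, 1724839808], [259850637312, -78979575104]], [[-1058453952, -543968960, 152235776], [-46321333056]], [[-160421952, 145118208], [2962845696]], [[71426240, -15584384]], [[-9981952]], [[620992]]]
  pol := some ⟨-663572447232, -7954279432192, 5872294035456, 31362867265536, [[-156689274752, -157592864512], [-4177353193600, 0]], [[664462498368, -610808727552], [23647878889856, 0]]⟩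
  a := [[[292436508672, 128271712256, 21157445632, -996238098432], [-3419725299712, 1299285213184]], [[130528444416, 8622374912, 54534668288, -200535834624], [199674953728, 3443452411904]], [[121448824832, -8364163072, 19818086400, -51666812928], [493039976448, 2479225634816]], [[111726886912, -18172608512, -5939396608, 82588073984], [564059897856, 1644319145984]], [[100030414848, -16204234752, -49558126592, 80595517440], [352458375168, 803538599936]], [[86267133952, -9349693440, -48862593024, 51127582720], [277087649792, 874036068352]]]
  j := [-4398046511104, 6734508720128, 9483287789568, 10995116277760, 10720238370816, 9208409882624]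
  c := [879662989312, 769604452352, 604785082368, 494726545408, 439697276928, 329907175424]
  M := [[[[1099255447552, -2664955904, 21461532672], [-27834056704, 1439427854336], [2028851232768]], [[102060589056, 71276691456], [4315335622656]], [[106805788672, -136076787712], [1042548260864]], [[195750461440]], [[-397298565120]], [[397885964288]]], [[[1097521823744, 15440216064, 4807655424], [392570732544]], [[29516562432, 1031798784], [585567502336]], [[-1835073536]], [[189595648]]], [[[1100281020416, 15977086976, 4919263232], [520363245568]], [[27511554048, 753860608], [573825155072]], [[-1239810048]], [[120127488]]], [[[1101311508480, 16779116544, 11994988544], [467195461632]], [[26643791872, 768999424], [563446218752]], [[-951582720]], [[80674816]]], [[[1102495350784, 17194811392, 8530952192], [447469322240]], [[25957433344, 509607936], [556114444288]], [[-743374848]], [[58195968]]], [[[1101636567040, 14502985728, 7790329856], [378784841728]], [[26315194368, 599654400], [565915680768]], [[-795475968]], [[63569920]]]]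
  l0 := [[[3517314376384, 99635073536], [1507527329536]], [[1260770109184, 60168745152], [-9864561621376]], [[318568913152, -801842804992], [-24270157253760]], [[-1085232008064, 1377802792576], [14445583613120]], [[5435709240448, -1239744243712], [-9726340170560]], [[-17042087436992, 139709265344], [-19263935975488]], [[43436011685504]], [[-90962565574976]], [[133786354248896]], [[-158086296142208]], [[112468254938112]], [[-63853351886720]]]
  q0 := [[137499586176, 185048933760, 6884540800], [3295896896576, 4670198225472], [1220185126720]]
  t := [[[1846986539008, 511634309120, -903728529408, -209227874304], [-4165986418688, -17791129223168]], [[749295763456, 71887618048, 547691692032, -767822331904], [2250895982592, 14666813341696]], [[688438181888, 57617481728, 544623230976, -509419061248], [3715705929728, 12708398825472]], [[657284988928, 63435702272, 309806039040, -52698480640], [4047269396480, 5511938179072]], [[637860315136, 89258131456, -52802748416, 312626708480], [4352280625152, 4639362908160]], [[669046996992, 214912335872, -235095392256, 318331879424], [6769802149888, 7995521695744]]]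
  y := [7063073718272, 8375186227200, 9559523459072, 10503342522368, 11233486962688, 11701638397952]
  sc := [0, 0, 0, 0, 0, 0]
  L := [(0, 2), (0, 3), (1, 1), (2, 0)]
  Lt := [(0, 2), (0, 3), (1, 1)]
  far := 3
  x2 := 10775214161920
  B1 := 879608463360
  C2 := 1379779086336
  f1 := 0
  f2 := 0
  f3 := 0
  is1 := 8796093022208
  s1 := 137438953472

end Pool.Agent.helper14.NS.Q20c
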